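import Mathlib

/-!
Abstract form of section 6.4: a C^1 map to a space of smaller dimension whose derivative is onto
with a bounded right inverse on a compact region, almost zero at the origin, and such that small
values of the map keep us inside the region, has infinitely many zeros in the region.
-/

open Set Filter Topology

namespace Pool.Agent.H20.EK

variable {V P : Type*} [NormedAddCommGroup V] [NormedSpace ℝ V] [FiniteDimensional ℝ V]
  [NormedAddCommGroup P] [NormedSpace ℝ P] [FiniteDimensional ℝ P]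

/-- Infinitely many zeros near a regular zero, when the kernel of the derivative is not trivial. -/
theorem infinite_zeros {G : V → P} {G' : V →L[ℝ] P} {q : V} (hG : HasStrictFDerivAt G G' q)
    (hsurj : Function.Surjective G') (hdim : Module.finrank ℝ P < Module.finrank ℝ V)
    (h0 : G q = 0) {U : Set V} (hU : U ∈ 𝓝 q) : {x | x ∈ U ∧ G x = 0}.Infinite := by
  intro hfin
  have hr : LinearMap.range (G' : V →ₗ[ℝ] P) = ⊤ := LinearMap.range_eq_top.2 hsurj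
  have hker : LinearMap.ker (G' : V →ₗ[ℝ] P) ≠ ⊥ :=
    LinearMap.ker_ne_bot_of_finrank_lt hdim
  obtain ⟨k, hk, hk0⟩ := Submodule.exists_mem_ne_zero_of_ne_bot hker
  let kk : LinearMap.ker (G' : V →ₗ[ℝ] P) := ⟨k, hk⟩
  let ψ := hG.implicitFunction G G' hr (G q)
  have hψ : HasStrictFDerivAt ψ (LinearMap.ker (G' : V →ₗ[ℝ] P)).subtypeL 0 :=
    hG.to_implicitFunction hr
  have hψ0 : ψ 0 = q := by
    exact hG.implicitFunction_apply_image hr
  have hline : HasDerivAt (fun s : ℝ => s • kk) kk 0 := by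
    simpa using (hasDerivAt_id (0 : ℝ)).smul_const kk
  have hc : HasDerivAt (fun s : ℝ => ψ (s • kk)) k 0 := by
    have h1 : HasFDerivAt ψ (LinearMap.ker (G' : V →ₗ[ℝ] P)).subtypeL ((0 : ℝ) • kk) := by
      simpa using hψ.hasFDerivAt
    exact h1.comp_hasDerivAt (0 : ℝ) hline
  have hne : ∀ᶠ s in 𝓝[≠] (0 : ℝ), ψ (s • kk) ≠ q := by
    have := hc.eventually_ne (c := q) hk0
    simpa using this
  have hval : ∀ᶠ s in 𝓝 (0 : ℝ), G (ψ (s • kk)) = 0 := by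
    have h1 := hG.map_implicitFunction_eq hr
    have h2 : Tendsto (fun s : ℝ => ((G q, s • kk) : P × LinearMap.ker (G' : V →ₗ[ℝ] P)))
        (𝓝 0) (𝓝 (G q, 0)) := by
      have h3 : Continuous (fun s : ℝ => ((G q, s • kk) : P × LinearMap.ker (G' : V →ₗ[ℝ] P))) := by
        fun_prop
      simpa using h3.tendsto 0
    filter_upwards [h2.eventually h1] with s hs
    simpa [ψ, h0] using hs
  have hlim : Tendsto (fun s : ℝ => ψ (s • kk)) (𝓝 0) (𝓝 q) := by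
    have := hc.continuousAt.tendsto
    simpa [hψ0] using this
  have hiso : ({x | x ∈ U ∧ G x = 0} \ {q})ᶜ ∈ 𝓝 q := by
    apply IsOpen.mem_nhds
    · exact (hfin.subset sdiff_subset).isClosed.isOpen_compl
    · simp
  have h4 : ∀ᶠ s in 𝓝[≠] (0 : ℝ), False := by
    have e1 : ∀ᶠ s in 𝓝[≠] (0 : ℝ), ψ (s • kk) ∈ U :=
      (hlim.eventually hU).filter_mono nhdsWithin_le_nhds
    have e2 : ∀ᶠ s in 𝓝[≠] (0 : ℝ), ψ (s • kk) ∈ ({x | x ∈ U ∧ G x = 0} \ {q})ᶜ :=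
      (hlim.eventually hiso).filter_mono nhdsWithin_le_nhds
    have e3 : ∀ᶠ s in 𝓝[≠] (0 : ℝ), G (ψ (s • kk)) = 0 := hval.filter_mono nhdsWithin_le_nhds
    filter_upwards [e1, e2, e3, hne] with s a b c d
    exact b ⟨⟨a, c⟩, d⟩
  have : (𝓝[≠] (0 : ℝ)) = ⊥ := by simpa using h4
  exact (NeBot.ne (inferInstance : (𝓝[≠] (0 : ℝ)).NeBot)) this

omit [FiniteDimensional ℝ P] in
/-- The minimisation step of 6.4. -/
theorem exists_zero (G : V → P) (G' : V → V →L[ℝ] P) (D : V → ℝ) {r c κ C : ℝ} (hκ : 0 < κ)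
    (hκc : κ < c) (hC : 0 ≤ C)
    (hD : ContinuousOn D (Metric.closedBall 0 r))
    (hG : ∀ q, ‖q‖ ≤ r → D q ≤ r → HasStrictFDerivAt G (G' q) q)
    (hsurj : ∀ q, ‖q‖ < r → D q < r → ∀ p : P, ∃ ξ : V, G' q ξ = p ∧ c * ‖ξ‖ ≤ ‖p‖)
    (hDr : ∀ q, ‖q‖ ≤ r → D q ≤ r → D q ≤ r / 2 + C * ‖G q‖)
    (hD0 : D 0 ≤ r) (hG0 : ‖G 0‖ < κ * r) (hG1 : C * ‖G 0‖ < r / 2) :
    ∃ q, ‖q‖ < r ∧ D q < r ∧ G q = 0 := by
  have hr : 0 < r := by
    by_contra hcon
    push Not at hcon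
    have : κ * r ≤ 0 := mul_nonpos_of_nonneg_of_nonpos hκ.le hcon
    linarith [norm_nonneg (G 0)]
  have hc : 0 < c := hκ.trans hκc
  set K : Set V := {q | ‖q‖ ≤ r ∧ D q ≤ r} with hK
  have hKeq : K = Metric.closedBall 0 r ∩ D ⁻¹' Set.Iic r := by
    ext q; simp [K]
  have hKc : IsCompact K := by
    rw [hKeq]
    have hcl : IsClosed (Metric.closedBall (0 : V) r ∩ D ⁻¹' Set.Iic r) :=
      hD.preimage_isClosed_of_isClosed Metric.isClosed_closedBall isClosed_Iic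
    exact (isCompact_closedBall (0 : V) r).of_isClosed_subset hcl inter_subset_left
  have h0K : (0 : V) ∈ K := ⟨by simpa using hr.le, hD0⟩
  have hF : ContinuousOn (fun q => ‖G q‖ + κ * ‖q‖) K := by
    intro q hq
    have h1 : ContinuousAt G q := (hG q hq.1 hq.2).continuousAt
    exact (h1.norm.add (by fun_prop)).continuousWithinAt
  obtain ⟨q, hqK, hmin⟩ := hKc.exists_isMinOn ⟨0, h0K⟩ hF
  have hm0 : ‖G q‖ + κ * ‖q‖ ≤ ‖G 0‖ := by
    have := hmin h0K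
    simpa using this
  have hq1 : ‖q‖ < r := by
    have : κ * ‖q‖ < κ * r := by linarith [norm_nonneg (G q)]
    exact lt_of_mul_lt_mul_left this hκ.le
  have hGq : ‖G q‖ ≤ ‖G 0‖ := by
    have : 0 ≤ κ * ‖q‖ := by positivity
    linarith
  have hq2 : D q < r := by
    have h1 := hDr q hqK.1 hqK.2
    have h2 : C * ‖G q‖ ≤ C * ‖G 0‖ := mul_le_mul_of_nonneg_left hGq hC
    linarith
  refine ⟨q, hq1, hq2, ?_⟩
  by_contra hne
  have hpos : 0 < ‖G q‖ := norm_pos_iff.2 hne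
  obtain ⟨ξ, hξ, hξn⟩ := hsurj q hq1 hq2 (-(G q))
  rw [norm_neg] at hξn
  have hDat : ContinuousAt D q :=
    hD.continuousAt (Metric.closedBall_mem_nhds_of_mem (by simpa using hq1))
  -- the curve
  have hcurve : HasDerivAt (fun s : ℝ => G (q + s • ξ)) (-(G q)) 0 := by
    have h1 : HasDerivAt (fun s : ℝ => q + s • ξ) ξ 0 := by
      simpa using ((hasDerivAt_id (0 : ℝ)).smul_const ξ).const_add q
    have h2 : HasFDerivAt G (G' q) (q + (0 : ℝ) • ξ) := by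
      simpa using (hG q hqK.1 hqK.2).hasFDerivAt
    have := h2.comp_hasDerivAt (0 : ℝ) h1
    rw [hξ] at this
    exact this
  have hgap : 0 < ‖G q‖ - κ * ‖ξ‖ := by
    rcases eq_or_lt_of_le (norm_nonneg ξ) with h | h
    · rw [← h]; simpa using hpos
    · have : κ * ‖ξ‖ < c * ‖ξ‖ := mul_lt_mul_of_pos_right hκc h
      linarith
  have hlittle : ∀ᶠ s in 𝓝 (0 : ℝ),
      ‖G (q + s • ξ) - G q - s • (-(G q))‖ ≤ ((‖G q‖ - κ * ‖ξ‖) / 2) * ‖s‖ := by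
    have h1 := hcurve.isLittleO
    have h2 := h1.def (c := (‖G q‖ - κ * ‖ξ‖) / 2) (by linarith)
    filter_upwards [h2] with s hs
    simpa using hs
  have hcont : ContinuousAt (fun s : ℝ => q + s • ξ) 0 := by fun_prop
  have hin : ∀ᶠ s in 𝓝 (0 : ℝ), q + s • ξ ∈ K := by
    have e1 : ∀ᶠ x in 𝓝 (q + (0 : ℝ) • ξ), ‖x‖ < r := by
      have : ContinuousAt (fun x : V => ‖x‖) (q + (0 : ℝ) • ξ) := by fun_prop
      exact this.eventually_lt continuousAt_const (by simpa using hq1)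
    have e2 : ∀ᶠ x in 𝓝 (q + (0 : ℝ) • ξ), D x < r := by
      have hD' : ContinuousAt D (q + (0 : ℝ) • ξ) := by simpa using hDat
      exact hD'.eventually_lt continuousAt_const (by simpa using hq2)
    filter_upwards [hcont.eventually (e1.and e2)] with s hs
    exact ⟨hs.1.le, hs.2.le⟩
  have hex : ∃ s : ℝ, 0 < s ∧ s < 1 ∧
      ‖G (q + s • ξ) - G q - s • (-(G q))‖ ≤ ((‖G q‖ - κ * ‖ξ‖) / 2) * ‖s‖ ∧
      q + s • ξ ∈ K := by
    have h1 := (hlittle.and hin).filter_mono (nhdsWithin_le_nhds (s := Set.Ioi (0 : ℝ)))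
    have h2 : ∀ᶠ s in 𝓝[>] (0 : ℝ), s ∈ Set.Ioo (0 : ℝ) 1 := Ioo_mem_nhdsGT one_pos
    obtain ⟨s, hs⟩ := (h1.and h2).exists
    exact ⟨s, hs.2.1, hs.2.2, hs.1.1, hs.1.2⟩
  obtain ⟨s, hs0, hs1, hsl, hsK⟩ := hex
  have hmins := hmin hsK
  simp only [mem_ofPred_eq] at hmins
  have hn1 : ‖G (q + s • ξ)‖ ≤ (1 - s) * ‖G q‖ + ((‖G q‖ - κ * ‖ξ‖) / 2) * s := by
    have hdec : G (q + s • ξ) = (G (q + s • ξ) - G q - s • (-(G q))) + (1 - s) • G q := by
      simp only [sub_smul, one_smul, smul_neg]; abel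
    calc ‖G (q + s • ξ)‖ = ‖(G (q + s • ξ) - G q - s • (-(G q))) + (1 - s) • G q‖ := by
          rw [← hdec]
      _ ≤ ‖G (q + s • ξ) - G q - s • (-(G q))‖ + ‖(1 - s) • G q‖ := norm_add_le _ _
      _ ≤ ((‖G q‖ - κ * ‖ξ‖) / 2) * s + (1 - s) * ‖G q‖ := by
          refine add_le_add ?_ ?_
          · rwa [Real.norm_of_nonneg hs0.le] at hsl
          · rw [norm_smul, Real.norm_of_nonneg (by linarith)]
      _ = _ := by ring
  have hn2 : ‖q + s • ξ‖ ≤ ‖q‖ + s * ‖ξ‖ := by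
    calc ‖q + s • ξ‖ ≤ ‖q‖ + ‖s • ξ‖ := norm_add_le _ _
      _ = ‖q‖ + s * ‖ξ‖ := by rw [norm_smul, Real.norm_of_nonneg hs0.le]
  have hn3 : κ * ‖q + s • ξ‖ ≤ κ * ‖q‖ + s * (κ * ‖ξ‖) := by
    calc κ * ‖q + s • ξ‖ ≤ κ * (‖q‖ + s * ‖ξ‖) := mul_le_mul_of_nonneg_left hn2 hκ.le
      _ = _ := by ring
  have : ‖G q‖ + κ * ‖q‖ ≤ ‖G (q + s • ξ)‖ + κ * ‖q + s • ξ‖ := hmins
  nlinarith [mul_pos hs0 hgap]

/-- Abstract 6.4: infinitely many zeros. -/
theorem infinite_of_surj (G : V → P) (G' : V → V →L[ℝ] P) (D : V → ℝ) {r c κ C : ℝ}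
    (hdim : Module.finrank ℝ P < Module.finrank ℝ V) (hκ : 0 < κ)
    (hκc : κ < c) (hC : 0 ≤ C)
    (hD : ContinuousOn D (Metric.closedBall 0 r))
    (hG : ∀ q, ‖q‖ ≤ r → D q ≤ r → HasStrictFDerivAt G (G' q) q)
    (hsurj : ∀ q, ‖q‖ < r → D q < r → ∀ p : P, ∃ ξ : V, G' q ξ = p ∧ c * ‖ξ‖ ≤ ‖p‖)
    (hDr : ∀ q, ‖q‖ ≤ r → D q ≤ r → D q ≤ r / 2 + C * ‖G q‖)
    (hD0 : D 0 ≤ r) (hG0 : ‖G 0‖ < κ * r) (hG1 : C * ‖G 0‖ < r / 2) :
    {q | ‖q‖ < r ∧ D q < r ∧ G q = 0}.Infinite := by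
  obtain ⟨q, h1, h2, h3⟩ := exists_zero G G' D hκ hκc hC hD hG hsurj hDr hD0 hG0 hG1
  have hDat : ContinuousAt D q :=
    hD.continuousAt (Metric.closedBall_mem_nhds_of_mem (by simpa using h1))
  have hU : {x | ‖x‖ < r ∧ D x < r} ∈ 𝓝 q := by
    have e1 : ∀ᶠ x in 𝓝 q, ‖x‖ < r :=
      (continuous_norm.continuousAt (x := q)).eventually_lt continuousAt_const h1
    have e2 : ∀ᶠ x in 𝓝 q, D x < r := hDat.eventually_lt continuousAt_const h2
    exact e1.and e2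
  have := infinite_zeros (hG q h1.le h2.le)
    (fun p => by obtain ⟨ξ, hξ, _⟩ := hsurj q h1 h2 p; exact ⟨ξ, hξ⟩) hdim h3 hU
  refine this.mono ?_
  rintro x ⟨⟨a, b⟩, c⟩
  exact ⟨a, b, c⟩

end Pool.Agent.H20.EK
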